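import Pool.Agent.HAR.Stmts

/-!
# HAR row NEA: the number of sets close to a given one
-/

namespace Pool.Agent.HAR.H13

open Finset Pool.Agent.HAR

theorem card_small (n g : ℕ) (hn : 2 ≤ n) : Nat.card {A : Finset (Fin n) // A.card < g} ≤ n ^ g := by
  classical
  have h1 : Nat.card {A : Finset (Fin n) // A.card < g} =
      ((univ : Finset (Finset (Fin n))).filter fun A => A.card < g).card := by
    rw [Nat.card_eq_fintype_card, Fintype.card_subtype]
  rw [h1]
  have h2 : ((univ : Finset (Finset (Fin n))).filter fun A => A.card < g) ⊆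
      (range g).biUnion fun a => powersetCard a (univ : Finset (Fin n)) := by
    intro A hA
    rw [mem_filter] at hA
    rw [mem_biUnion]
    exact ⟨A.card, mem_range.2 hA.2, mem_powersetCard.2 ⟨subset_univ _, rfl⟩⟩
  calc ((univ : Finset (Finset (Fin n))).filter fun A => A.card < g).card
      ≤ ((range g).biUnion fun a => powersetCard a (univ : Finset (Fin n))).card := card_le_card h2
    _ ≤ ∑ a ∈ range g, (powersetCard a (univ : Finset (Fin n))).card := card_biUnion_le
    _ ≤ ∑ a ∈ range g, n ^ a := by
        refine sum_le_sum fun a _ => ?_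
        rw [card_powersetCard, card_univ, Fintype.card_fin]
        exact Nat.choose_le_pow n a
    _ ≤ n ^ g := (Nat.geomSum_lt hn fun k hk => mem_range.1 hk).le

/-- NEA -/
theorem nea : NeaStmt := by
  classical
  intro n g u U hn hU
  have h1 : ∀ U' : Finset (Fin n), U'.card = u → u < (U ∩ U').card + g →
      (U \ U').card < g ∧ (U' \ U).card < g := by
    intro U' hU' h
    have h2 := card_sdiff_add_card_inter U U'
    have h3 := card_sdiff_add_card_inter U' U
    rw [inter_comm U' U] at h3
    omega
  let f : {U' : Finset (Fin n) // U'.card = u ∧ u < (U ∩ U').card + g} →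
      {A : Finset (Fin n) // A.card < g} × {A : Finset (Fin n) // A.card < g} := fun U' =>
    (⟨U \ U'.1, (h1 U'.1 U'.2.1 U'.2.2).1⟩, ⟨U'.1 \ U, (h1 U'.1 U'.2.1 U'.2.2).2⟩)
  have hf : Function.Injective f := by
    intro A B hAB
    have h2 : U \ A.1 = U \ B.1 := congrArg (fun p => p.1.1) hAB
    have h3 : A.1 \ U = B.1 \ U := congrArg (fun p => p.2.1) hAB
    apply Subtype.ext
    ext x
    have h4 : x ∈ U \ A.1 ↔ x ∈ U \ B.1 := by rw [h2]
    have h5 : x ∈ A.1 \ U ↔ x ∈ B.1 \ U := by rw [h3]
    simp only [mem_sdiff] at h4 h5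
    by_cases hx : x ∈ U
    · simp only [hx, true_and] at h4
      exact not_iff_not.1 h4
    · simp only [hx, not_false_eq_true, and_true] at h5
      exact h5
  calc Nat.card {U' : Finset (Fin n) // U'.card = u ∧ u < (U ∩ U').card + g}
      ≤ Nat.card ({A : Finset (Fin n) // A.card < g} × {A : Finset (Fin n) // A.card < g}) :=
        Nat.card_le_card_of_injective f hf
    _ = Nat.card {A : Finset (Fin n) // A.card < g} * Nat.card {A : Finset (Fin n) // A.card < g} :=
        Nat.card_prod _ _
    _ ≤ n ^ g * n ^ g := Nat.mul_le_mul (card_small n g hn) (card_small n g hn)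
    _ = n ^ (2 * g) := by rw [two_mul, pow_add]

end Pool.Agent.HAR.H13
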